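import Mathlib

/-!
# Concurrency of lines in the Wang–Shi split

We prove `μ_d ≤ d + 1` for every `d ≥ 2`: at most `d + 1` lines of the Wang–Shi split `WS_d`
pass through a point of the interior of the triangle.

Idea: label the `3d` division points cyclically.  A line of `WS_d` through `P` uses two of them,
and different lines use different points.  If a line uses `u` and `v` then at least one of the
successors `u + 1`, `v + 1` is not used by any line through `P`, unless `u + 1` and `v + 1` are
joined by a line through `P`; by strict convexity of a hyperbola this last event happens at most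
once in each of the three sectors cut out by the three lines through `P` and a vertex.  Hence
`N ≤ (3d - 2N) + 3`.
-/

namespace Pool.Agent.Results.MP_e74ad6_co.WangShiConcurrency

/-- The Euclidean plane. -/
abbrev Plane : Type := EuclideanSpace ℝ (Fin 2)

/-- The division points: every side of the triangle with vertices `T 0, T 1, T 2` is divided
into `d` segments of equal length. -/
def divisionPoints (T : Fin 3 → Plane) (d : ℕ) : Set Plane :=
  {X | ∃ i j : Fin 3, i ≠ j ∧ ∃ k : ℕ, k ≤ d ∧
    X = AffineMap.lineMap (T i) (T j) ((k : ℝ) / (d : ℝ))}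

/-- The points `X` and `Y` lie on a common side of the triangle. -/
def OnCommonSide (T : Fin 3 → Plane) (X Y : Plane) : Prop :=
  ∃ i j : Fin 3, i ≠ j ∧ X ∈ segment ℝ (T i) (T j) ∧ Y ∈ segment ℝ (T i) (T j)

/-- The lines of the Wang–Shi split: the lines joining two division points that do not lie on a
common side. -/
def wsLines (T : Fin 3 → Plane) (d : ℕ) : Set (AffineSubspace ℝ Plane) :=
  {ℓ | ∃ X ∈ divisionPoints T d, ∃ Y ∈ divisionPoints T d,
    ¬ OnCommonSide T X Y ∧ ℓ = line[ℝ, X, Y]}

/-- The largest number of lines of the Wang–Shi split through a point of the interior of the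
triangle. -/
noncomputable def mu (T : Fin 3 → Plane) (d : ℕ) : ℕ∞ :=
  ⨆ P ∈ interior (convexHull ℝ (Set.range T)), {ℓ ∈ wsLines T d | P ∈ ℓ}.encard

/-! ### The combinatorial core -/

/-- The line joining the point at distance `a` on one side and the point at distance `b` on the
other side (both measured from the common vertex, in units of `1/d`) passes through the point
with scaled barycentric coordinates `y`, `z`. -/
def On (y z : ℝ) (d a b : ℕ) : Prop :=
  1 ≤ a ∧ a ≤ d ∧ 1 ≤ b ∧ b ≤ d ∧ y * b + z * a = a * b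

lemma On.ha {y z : ℝ} {d a b : ℕ} (h : On y z d a b) : (0 : ℝ) < a := by
  exact_mod_cast h.1

lemma On.hb {y z : ℝ} {d a b : ℕ} (h : On y z d a b) : (0 : ℝ) < b := by
  exact_mod_cast h.2.2.1

lemma On.had {y z : ℝ} {d a b : ℕ} (h : On y z d a b) : (a : ℝ) ≤ d := by
  exact_mod_cast h.2.1

lemma On.hbd {y z : ℝ} {d a b : ℕ} (h : On y z d a b) : (b : ℝ) ≤ d := by
  exact_mod_cast h.2.2.2.1

lemma On.eq {y z : ℝ} {d a b : ℕ} (h : On y z d a b) : y * b + z * a = a * b := h.2.2.2.2

lemma On.div {y z : ℝ} {d a b : ℕ} (h : On y z d a b) : y / a + z / b = 1 := by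
  have ha := h.ha
  have hb := h.hb
  have e := h.eq
  field_simp
  linarith

lemma On.mono {y z : ℝ} (hy : 0 < y) (hz : 0 < z) {d a b a' b' : ℕ} (h : On y z d a b)
    (h' : On y z d a' b') (haa : a < a') : b' < b := by
  by_contra hcon
  push Not at hcon
  have e := h.div
  have e' := h'.div
  have ha := h.ha
  have hb := h.hb
  have h1 : y / (a' : ℝ) < y / a := by
    apply div_lt_div_of_pos_left hy ha
    exact_mod_cast haa
  have h2 : z / (b' : ℝ) ≤ z / b := by
    apply div_le_div_of_nonneg_left hz.le hb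
    exact_mod_cast hcon
  linarith

lemma On.anti {y z : ℝ} (hy : 0 < y) (hz : 0 < z) {d a b a' b' : ℕ} (h : On y z d a b)
    (h' : On y z d a' b') (hbb : b < b') : a' < a := by
  by_contra hcon
  push Not at hcon
  have e := h.div
  have e' := h'.div
  have ha := h.ha
  have hb := h.hb
  have h1 : y / (a' : ℝ) ≤ y / a := by
    apply div_le_div_of_nonneg_left hy.le ha
    exact_mod_cast hcon
  have h2 : z / (b' : ℝ) < z / b := by
    apply div_lt_div_of_pos_left hz hb
    exact_mod_cast hbb
  linarith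

/-- The foot inequality on the first side. -/
lemma On.footA {x y z : ℝ} (hz : 0 < z) {d a b : ℕ} (hs : x + y + z = d)
    (h : On y z d a b) : d * y ≤ a * (x + y) := by
  have e := h.eq
  have ha := h.ha
  have hb := h.hb
  have hbd := h.hbd
  have key : (d : ℝ) * (y * b) ≤ (a * (x + y)) * b := by
    have : a * (x + y) = a * (d - z) := by rw [← hs]; ring
    rw [this]
    have : y * b = a * b - z * a := by linarith
    rw [this]
    nlinarith [mul_pos hz ha]
  have : (d * y) * (b : ℝ) ≤ (a * (x + y)) * b := by linarith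
  exact le_of_mul_le_mul_right this hb

lemma On.footA' {x y z : ℝ} (hz : 0 < z) {d a b : ℕ} (hs : x + y + z = d)
    (h : On y z d a b) (hlt : b < d) : d * y < a * (x + y) := by
  have e := h.eq
  have ha := h.ha
  have hb := h.hb
  have hbd : (b : ℝ) < d := by exact_mod_cast hlt
  have key : (d : ℝ) * (y * b) < (a * (x + y)) * b := by
    have : a * (x + y) = a * (d - z) := by rw [← hs]; ring
    rw [this]
    have : y * b = a * b - z * a := by linarith
    rw [this]
    nlinarith [mul_pos hz ha]
  have : (d * y) * (b : ℝ) < (a * (x + y)) * b := by linarith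
  exact lt_of_mul_lt_mul_right this hb.le

lemma On.symm {y z : ℝ} {d a b : ℕ} (h : On y z d a b) : On z y d b a :=
  ⟨h.2.2.1, h.2.2.2.1, h.1, h.2.1, by have := h.eq; linarith⟩

/-- The foot inequality on the second side. -/
lemma On.footB {x y z : ℝ} (hy : 0 < y) {d a b : ℕ} (hs : x + y + z = d)
    (h : On y z d a b) : d * z ≤ b * (x + z) :=
  h.symm.footA hy (by linarith)

lemma On.footB' {x y z : ℝ} (hy : 0 < y) {d a b : ℕ} (hs : x + y + z = d)
    (h : On y z d a b) (hlt : a < d) : d * z < b * (x + z) :=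
  h.symm.footA' hy (by linarith) hlt

/-- In one sector two different lines cannot both be followed by a line at offset `(1, -1)`. -/
lemma On.convex {y z : ℝ} (hy : 0 < y) (hz : 0 < z) {d a b a' b' : ℕ} (h : On y z d a b)
    (h1 : On y z d (a + 1) (b - 1)) (h' : On y z d a' b') (h1' : On y z d (a' + 1) (b' - 1)) :
    a = a' ∧ b = b' := by
  have e := h.eq
  have e1 := h1.eq
  have e' := h'.eq
  have e1' := h1'.eq
  have hb1 : 1 ≤ b := h.2.2.1
  have hb1' : 1 ≤ b' := h'.2.2.1
  push_cast [Nat.cast_sub hb1] at e1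
  push_cast [Nat.cast_sub hb1'] at e1'
  have k : (b : ℝ) - a = 1 + z - y := by nlinarith
  have k' : (b' : ℝ) - a' = 1 + z - y := by nlinarith
  have kk : b + a' = b' + a := by
    have : (b : ℝ) + a' = b' + a := by linarith
    exact_mod_cast this
  rcases lt_trichotomy a a' with hlt | heq | hgt
  · have := h.mono hy hz h' hlt
    omega
  · exact ⟨heq, by omega⟩
  · have := h'.mono hy hz h hgt
    omega

section counting

variable (d : ℕ) (X : Fin 3 → ℝ)

open Classical in
/-- The lines through the point, in combinatorial form: `(i, a, c)` stands for the line joining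
the point `a` steps from vertex `i` towards vertex `i+1` and the point `c` steps from vertex
`i + 2` towards vertex `i`. -/
noncomputable def lines : Finset (Fin 3 × ℕ × ℕ) :=
  ((Finset.univ : Finset (Fin 3)) ×ˢ (Finset.range d ×ˢ Finset.range d)).filter
    (fun t => On (X (t.1 + 1)) (X (t.1 + 2)) d t.2.1 (d - t.2.2))

lemma mem_lines {i : Fin 3} {a c : ℕ} :
    (i, a, c) ∈ lines d X ↔ a < d ∧ c < d ∧ On (X (i + 1)) (X (i + 2)) d a (d - c) := by
  simp [lines, and_assoc]

/-- All division points. -/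
def allPts : Finset (Fin 3 × ℕ) := (Finset.univ : Finset (Fin 3)) ×ˢ Finset.range d

def e1 (t : Fin 3 × ℕ × ℕ) : Fin 3 × ℕ := (t.1, t.2.1)
def e2 (t : Fin 3 × ℕ × ℕ) : Fin 3 × ℕ := (t.1 + 2, t.2.2)

def nxt (p : Fin 3 × ℕ) : Fin 3 × ℕ := if p.2 + 1 < d then (p.1, p.2 + 1) else (p.1 + 1, 0)

noncomputable def used : Finset (Fin 3 × ℕ) := (lines d X).image e1 ∪ (lines d X).image e2

variable {d X}

lemma nxt_inj {p q : Fin 3 × ℕ} (hp : p.2 < d) (hq : q.2 < d) (h : nxt d p = nxt d q) :
    p = q := by
  obtain ⟨i, m⟩ := p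
  obtain ⟨j, n⟩ := q
  simp only [nxt] at h hp hq
  split_ifs at h with h1 h2 h2
  · simp only [Prod.mk.injEq] at h ⊢
    exact ⟨h.1, by omega⟩
  · simp only [Prod.mk.injEq] at h
    omega
  · simp only [Prod.mk.injEq] at h
    omega
  · simp only [Prod.mk.injEq, add_left_inj] at h ⊢
    exact ⟨h.1, by omega⟩

lemma nxt_mem {p : Fin 3 × ℕ} (hp : p.2 < d) : nxt d p ∈ allPts d := by
  simp only [allPts, nxt, Finset.mem_product, Finset.mem_univ, true_and, Finset.mem_range]
  split_ifs with h
  · exact h
  · simp only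
    omega

lemma e1_inj (hX : ∀ i, 0 < X i) {s t : Fin 3 × ℕ × ℕ} (hs : s ∈ lines d X)
    (ht : t ∈ lines d X) (h : e1 s = e1 t) : s = t := by
  obtain ⟨i, a, c⟩ := s
  obtain ⟨i', a', c'⟩ := t
  simp only [e1, Prod.mk.injEq] at h
  obtain ⟨rfl, rfl⟩ := h
  rw [mem_lines] at hs ht
  obtain ⟨_, hc, hs⟩ := hs
  obtain ⟨_, hc', ht⟩ := ht
  have : d - c = d - c' := by
    by_contra hne
    rcases lt_or_gt_of_ne hne with hlt | hgt
    · exact absurd (hs.anti (hX _) (hX _) ht hlt) (lt_irrefl _)
    · exact absurd (ht.anti (hX _) (hX _) hs hgt) (lt_irrefl _)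
  have : c = c' := by omega
  rw [this]

lemma e2_inj (hX : ∀ i, 0 < X i) {s t : Fin 3 × ℕ × ℕ} (hs : s ∈ lines d X)
    (ht : t ∈ lines d X) (h : e2 s = e2 t) : s = t := by
  obtain ⟨i, a, c⟩ := s
  obtain ⟨i', a', c'⟩ := t
  simp only [e2, Prod.mk.injEq, add_left_inj] at h
  obtain ⟨rfl, rfl⟩ := h
  rw [mem_lines] at hs ht
  obtain ⟨_, hc, hs⟩ := hs
  obtain ⟨_, hc', ht⟩ := ht
  have : a = a' := by
    by_contra hne
    rcases lt_or_gt_of_ne hne with hlt | hgt
    · exact absurd (hs.mono (hX _) (hX _) ht hlt) (lt_irrefl _)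
    · exact absurd (ht.mono (hX _) (hX _) hs hgt) (lt_irrefl _)
  rw [this]

lemma sum_shift (hsum : X 0 + X 1 + X 2 = d) (i : Fin 3) : X i + X (i + 1) + X (i + 2) = d := by
  fin_cases i
  · exact hsum
  · show X 1 + X 2 + X 0 = d
    linarith
  · show X 2 + X 0 + X 1 = d
    linarith

lemma add_one_one (i : Fin 3) : i + 1 + 1 = i + 2 := by
  revert i; decide
lemma add_one_two (i : Fin 3) : i + 1 + 2 = i := by
  revert i; decide
lemma add_two_one (i : Fin 3) : i + 2 + 1 = i := by
  revert i; decide
lemma add_two_two (i : Fin 3) : i + 2 + 2 = i + 1 := by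
  revert i; decide
lemma add_one_ne (i : Fin 3) : i + 1 ≠ i := by
  revert i; decide
lemma add_two_ne (i : Fin 3) : i + 2 ≠ i := by
  revert i; decide
lemma add_one_ne_add_two (i : Fin 3) : i + 1 ≠ i + 2 := by
  revert i; decide
lemma eq_add_two_or (i j : Fin 3) (h : i ≠ j) : j = i + 2 ∨ i = j + 2 := by
  revert i j; decide

/-- The point `m` steps from vertex `i` towards vertex `i + 1` cannot be used both in sector `i`
and in sector `i + 1`, not even by neighbouring positions. -/
lemma no_cross (hX : ∀ i, 0 < X i) (hsum : X 0 + X 1 + X 2 = d) {i : Fin 3} {a b m a' : ℕ}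
    (h : On (X (i + 1)) (X (i + 2)) d a b) (ham : a ≤ m) (hm : m ≤ d)
    (h' : On (X (i + 2)) (X i) d a' (d - m)) (ha' : a' < d) : False := by
  have hs := sum_shift hsum i
  have f1 := h.footA (hX _) hs
  have hs' : X (i + 1) + X (i + 2) + X i = d := by linarith
  have f2 := h'.footB' (hX _) hs' ha'
  push_cast [Nat.cast_sub hm] at f2
  have hp : 0 < X i + X (i + 1) := add_pos (hX _) (hX _)
  have ham' : (a : ℝ) ≤ m := by exact_mod_cast ham
  nlinarith [mul_le_mul_of_nonneg_right ham' hp.le]

lemma e1_ne_e2 (hX : ∀ i, 0 < X i) (hsum : X 0 + X 1 + X 2 = d) {s t : Fin 3 × ℕ × ℕ}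
    (hs : s ∈ lines d X) (ht : t ∈ lines d X) : e1 s ≠ e2 t := by
  obtain ⟨i, a, c⟩ := s
  obtain ⟨j, a', c'⟩ := t
  intro h
  simp only [e1, e2, Prod.mk.injEq] at h
  obtain ⟨h1, rfl⟩ := h
  have hj : j = i + 1 := by rw [h1, add_two_one]
  subst hj
  rw [mem_lines] at hs ht
  obtain ⟨had, _, hs⟩ := hs
  obtain ⟨ha', _, ht⟩ := ht
  rw [add_one_one, add_one_two] at ht
  exact no_cross hX hsum hs le_rfl had.le ht ha'

lemma used_card (hX : ∀ i, 0 < X i) (hsum : X 0 + X 1 + X 2 = d) :
    (used d X).card = 2 * (lines d X).card := by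
  rw [used, Finset.card_union_of_disjoint, Finset.card_image_of_injOn,
    Finset.card_image_of_injOn]
  · ring
  · intro s hs t ht h
    exact e2_inj hX hs ht h
  · intro s hs t ht h
    exact e1_inj hX hs ht h
  · rw [Finset.disjoint_left]
    intro p hp hq
    rw [Finset.mem_image] at hp hq
    obtain ⟨s, hs, rfl⟩ := hp
    obtain ⟨t, ht, hh⟩ := hq
    exact e1_ne_e2 hX hsum hs ht hh.symm

lemma used_subset : used d X ⊆ allPts d := by
  intro p hp
  rw [used, Finset.mem_union, Finset.mem_image, Finset.mem_image] at hp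
  simp only [allPts, Finset.mem_product, Finset.mem_univ, true_and, Finset.mem_range]
  rcases hp with ⟨⟨i, a, c⟩, hs, rfl⟩ | ⟨⟨i, a, c⟩, hs, rfl⟩
  · rw [mem_lines] at hs
    exact hs.1
  · rw [mem_lines] at hs
    exact hs.2.1

lemma mem_used {j : Fin 3} {m : ℕ} : (j, m) ∈ used d X ↔
    (∃ c, (j, m, c) ∈ lines d X) ∨ (∃ a, (j + 1, a, m) ∈ lines d X) := by
  rw [used, Finset.mem_union, Finset.mem_image, Finset.mem_image]
  constructor
  · rintro (⟨⟨i, a, c⟩, hs, h⟩ | ⟨⟨i, a, c⟩, hs, h⟩)
    · simp only [e1, Prod.mk.injEq] at h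
      obtain ⟨rfl, rfl⟩ := h
      exact Or.inl ⟨c, hs⟩
    · simp only [e2, Prod.mk.injEq] at h
      obtain ⟨rfl, rfl⟩ := h
      right
      rw [add_two_one]
      exact ⟨a, hs⟩
  · rintro (⟨c, hs⟩ | ⟨a, hs⟩)
    · exact Or.inl ⟨_, hs, rfl⟩
    · refine Or.inr ⟨_, hs, ?_⟩
      simp [e2, add_one_two]

/-- If the successor of the first point of a line is used, it is used by a line of the same
closed sector. -/
lemma step1 (hX : ∀ i, 0 < X i) (hsum : X 0 + X 1 + X 2 = d) {i : Fin 3} {a c : ℕ}
    (h : (i, a, c) ∈ lines d X) (hu : nxt d (e1 (i, a, c)) ∈ used d X) :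
    ∃ b', On (X (i + 1)) (X (i + 2)) d (a + 1) b' := by
  rw [mem_lines] at h
  obtain ⟨had, hcd, h⟩ := h
  have hs := sum_shift hsum i
  simp only [nxt, e1] at hu
  split_ifs at hu with h1
  · rw [mem_used] at hu
    rcases hu with ⟨c', hc'⟩ | ⟨a', ha'⟩
    · rw [mem_lines] at hc'
      exact ⟨_, hc'.2.2⟩
    · exfalso
      rw [mem_lines, add_one_one, add_one_two] at ha'
      obtain ⟨ha'd, _, ha'⟩ := ha'
      exact no_cross hX hsum h (Nat.le_succ a) h1.le ha' ha'd
  · have had' : a + 1 = d := by omega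
    rw [mem_used] at hu
    rcases hu with ⟨c', hc'⟩ | ⟨a', ha'⟩
    · rw [mem_lines] at hc'
      have := hc'.2.2.1
      omega
    · rw [mem_lines, add_one_one i, add_two_one, add_two_two, Nat.sub_zero] at ha'
      obtain ⟨ha'd, _, ha'⟩ := ha'
      refine ⟨d - a', ?_⟩
      have e := ha'.eq
      have hd0 : (0 : ℝ) < d := by
        have : 0 < d := by omega
        exact_mod_cast this
      have ha1 := ha'.1
      refine ⟨by omega, by omega, by omega, by omega, ?_⟩
      rw [had']
      push_cast [Nat.cast_sub ha'd.le]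
      have : X (i + 2) = d - X i - X (i + 1) := by linarith
      rw [this]
      nlinarith

/-- If both successors of the points of a line are used, they are joined by a line of the same
closed sector. -/
lemma step2 (hX : ∀ i, 0 < X i) (hsum : X 0 + X 1 + X 2 = d) {i : Fin 3} {a c : ℕ}
    (h : (i, a, c) ∈ lines d X) (hu : nxt d (e1 (i, a, c)) ∈ used d X)
    (hv : nxt d (e2 (i, a, c)) ∈ used d X) :
    On (X (i + 1)) (X (i + 2)) d (a + 1) (d - c - 1) := by
  obtain ⟨b', hb'⟩ := step1 hX hsum h hu
  rw [mem_lines] at h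
  obtain ⟨had, hcd, h⟩ := h
  have hs := sum_shift hsum i
  have hlt : b' < d - c := h.mono (hX _) (hX _) hb' (Nat.lt_succ_self a)
  have hb1 := hb'.2.2.1
  have hc1 : c + 1 < d := by omega
  simp only [nxt, e2, if_pos hc1] at hv
  rw [mem_used] at hv
  rcases hv with ⟨c', hc'⟩ | ⟨a', ha'⟩
  · rw [mem_lines, add_two_one, add_two_two] at hc'
    obtain ⟨_, _, hc'⟩ := hc'
    have hs' : X (i + 2) + X i + X (i + 1) = d := by linarith
    have f1 := hc'.footA (hX _) hs'
    have f2 := hb'.footB (hX _) hs
    push_cast at f1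
    have hp : 0 < X i + X (i + 2) := add_pos (hX _) (hX _)
    have hle : (d : ℝ) - c - 1 ≤ b' := by
      by_contra hcon
      push Not at hcon
      nlinarith [mul_lt_mul_of_pos_right hcon hp]
    have hle' : d - c - 1 ≤ b' := by
      have : (d : ℝ) ≤ b' + c + 1 := by linarith
      have : d ≤ b' + c + 1 := by exact_mod_cast this
      omega
    have : b' = d - c - 1 := by omega
    rw [← this]
    exact hb'
  · rw [mem_lines, add_two_one] at ha'
    obtain ⟨_, _, ha'⟩ := ha'
    have hlt1 : d - (c + 1) < d - c := by omega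
    have h3 : a < a' := ha'.anti (hX _) (hX _) h hlt1
    have : b' = d - (c + 1) := by
      by_contra hne
      have hlt2 : b' < d - (c + 1) := by omega
      have := hb'.anti (hX _) (hX _) ha' hlt2
      omega
    have : b' = d - c - 1 := by omega
    rw [← this]
    exact hb'

theorem card_lines_le (hX : ∀ i, 0 < X i) (hsum : X 0 + X 1 + X 2 = d) :
    (lines d X).card ≤ d + 1 := by
  classical
  set E := (lines d X).filter
    (fun t => On (X (t.1 + 1)) (X (t.1 + 2)) d (t.2.1 + 1) (d - t.2.2 - 1)) with hE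
  -- at most one exceptional line in each sector
  have hE3 : E.card ≤ 3 := by
    have : E.card ≤ (Finset.univ : Finset (Fin 3)).card := by
      apply Finset.card_le_card_of_injOn (fun t => t.1) (fun _ _ => Finset.mem_univ _)
      rintro ⟨i, a, c⟩ hs ⟨i', a', c'⟩ ht hii
      simp only at hii
      subst hii
      rw [hE, Finset.mem_coe, Finset.mem_filter, mem_lines] at hs ht
      obtain ⟨⟨_, hc, h1⟩, h2⟩ := hs
      obtain ⟨⟨_, hc', h1'⟩, h2'⟩ := ht
      have := On.convex (hX _) (hX _) h1 h2 h1' h2'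
      simp only [Prod.mk.injEq, true_and]
      omega
    simpa using this
  -- injection of the other lines into the unused points
  have hinj : ((lines d X) \ E).card ≤ (allPts d \ used d X).card := by
    apply Finset.card_le_card_of_injOn
      (fun t => if nxt d (e1 t) ∈ used d X then nxt d (e2 t) else nxt d (e1 t))
    · rintro ⟨i, a, c⟩ ht
      rw [Finset.mem_coe, Finset.mem_sdiff] at ht
      obtain ⟨ht, htE⟩ := ht
      have hm := (mem_lines d X).1 ht
      rw [Finset.mem_coe, Finset.mem_sdiff]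
      simp only
      split_ifs with h1
      · refine ⟨nxt_mem hm.2.1, fun h2 => htE ?_⟩
        rw [hE, Finset.mem_filter]
        exact ⟨ht, step2 hX hsum ht h1 h2⟩
      · exact ⟨nxt_mem hm.1, h1⟩
    · rintro ⟨i, a, c⟩ hs ⟨i', a', c'⟩ ht h
      rw [Finset.mem_coe, Finset.mem_sdiff] at hs ht
      have hs' := (mem_lines d X).1 hs.1
      have ht' := (mem_lines d X).1 ht.1
      simp only at h
      split_ifs at h with h1 h2 h2
      · exact e2_inj hX hs.1 ht.1 (nxt_inj hs'.2.1 ht'.2.1 h)
      · exact absurd (nxt_inj hs'.2.1 ht'.1 h) (e1_ne_e2 hX hsum ht.1 hs.1).symm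
      · exact absurd (nxt_inj hs'.1 ht'.2.1 h) (e1_ne_e2 hX hsum hs.1 ht.1)
      · exact e1_inj hX hs.1 ht.1 (nxt_inj hs'.1 ht'.1 h)
  have hall : (allPts d).card = 3 * d := by
    simp [allPts]
  have h1 : (allPts d \ used d X).card = 3 * d - 2 * (lines d X).card := by
    rw [Finset.card_sdiff_of_subset used_subset, hall, used_card hX hsum]
  have h2 : ((lines d X) \ E).card = (lines d X).card - E.card := by
    rw [Finset.card_sdiff_of_subset (Finset.filter_subset _ _)]
  have h3 : 2 * (lines d X).card ≤ 3 * d := by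
    rw [← used_card hX hsum, ← hall]
    exact Finset.card_le_card used_subset
  omega

end counting

/-! ### Geometry -/

/-- The division point `m` steps from vertex `i` towards vertex `i + 1`. -/
noncomputable def dpt (T : Fin 3 → Plane) (d : ℕ) (p : Fin 3 × ℕ) : Plane :=
  AffineMap.lineMap (T p.1) (T (p.1 + 1)) ((p.2 : ℝ) / (d : ℝ))

lemma exists_dpt (T : Fin 3 → Plane) {d : ℕ} (hd : 0 < d) {Y : Plane}
    (hY : Y ∈ divisionPoints T d) : ∃ i : Fin 3, ∃ m < d, Y = dpt T d (i, m) := by
  obtain ⟨i, j, hij, k, hk, rfl⟩ := hY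
  have hd' : (d : ℝ) ≠ 0 := by exact_mod_cast hd.ne'
  have hcases : j = i + 1 ∨ i = j + 1 := by revert i j; decide
  rcases hcases with rfl | rfl
  · rcases Nat.lt_or_ge k d with hlt | hge
    · exact ⟨i, k, hlt, rfl⟩
    · have : k = d := le_antisymm hk hge
      subst this
      refine ⟨i + 1, 0, hd, ?_⟩
      simp [dpt, div_self hd']
  · rcases Nat.eq_zero_or_pos k with rfl | hpos
    · refine ⟨j + 1, 0, hd, ?_⟩
      simp [dpt]
    · refine ⟨j, d - k, by omega, ?_⟩
      simp only [dpt]
      rw [Nat.cast_sub hk, sub_div, div_self hd', AffineMap.lineMap_apply_one_sub]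

lemma dpt_mem_segment (T : Fin 3 → Plane) {d : ℕ} (hd : 0 < d) {i : Fin 3} {m : ℕ}
    (hm : m < d) : dpt T d (i, m) ∈ segment ℝ (T i) (T (i + 1)) := by
  rw [segment_eq_image_lineMap]
  refine ⟨(m : ℝ) / d, ⟨by positivity, ?_⟩, rfl⟩
  rw [div_le_one (by exact_mod_cast hd)]
  exact_mod_cast hm.le

theorem result (T : Fin 3 → Plane) (hT : AffineIndependent ℝ T) (d : ℕ) (hd : 2 ≤ d) :
    mu T d ≤ d + 1 := by
  classical
  have hd0 : 0 < d := by omega
  have hd' : (0 : ℝ) < d := by exact_mod_cast hd0
  have htop : affineSpan ℝ (Set.range T) = ⊤ := by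
    rw [hT.affineSpan_eq_top_iff_card_eq_finrank_add_one]
    simp
  let B : AffineBasis (Fin 3) ℝ Plane := ⟨T, hT, htop⟩
  have hB : ∀ i, B i = T i := fun _ => rfl
  refine iSup₂_le fun P hP => ?_
  have hP' : ∀ i, 0 < B.coord i P := by
    have := AffineBasis.interior_convexHull B
    have h2 : P ∈ interior (convexHull ℝ (Set.range B)) := hP
    rw [this] at h2
    exact h2
  set X : Fin 3 → ℝ := fun i => d * B.coord i P with hXdef
  have hX : ∀ i, 0 < X i := fun i => mul_pos hd' (hP' i)
  have hsum : X 0 + X 1 + X 2 = d := by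
    have h := B.sum_coord_apply_eq_one P
    rw [Fin.sum_univ_three] at h
    simp only [hXdef]
    rw [← mul_add, ← mul_add, h, mul_one]
  -- every line through `P` comes from a combinatorial line
  have hsub : {ℓ ∈ wsLines T d | P ∈ ℓ} ⊆
      ((lines d X).image (fun t => line[ℝ, dpt T d (e1 t), dpt T d (e2 t)]) :
        Finset (AffineSubspace ℝ Plane)) := by
    rintro ℓ ⟨⟨Y, hY, Z, hZ, hnc, rfl⟩, hPℓ⟩
    obtain ⟨i, m, hm, rfl⟩ := exists_dpt T hd0 hY
    obtain ⟨j, n, hn, rfl⟩ := exists_dpt T hd0 hZ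
    -- key claim in the normalised situation
    have key : ∀ (i : Fin 3) (m n : ℕ), m < d → n < d →
        ¬ OnCommonSide T (dpt T d (i, m)) (dpt T d (i + 2, n)) →
        P ∈ line[ℝ, dpt T d (i, m), dpt T d (i + 2, n)] → (i, m, n) ∈ lines d X := by
      intro i m n hm hn hnc hPl
      rw [mem_lines]
      refine ⟨hm, hn, ?_⟩
      have hm1 : 1 ≤ m := by
        by_contra hcon
        have hm0 : m = 0 := by omega
        subst hm0
        apply hnc
        refine ⟨i + 2, i, add_two_ne i, ?_, ?_⟩
        · have : dpt T d (i, 0) = T i := by simp [dpt]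
          rw [this]
          exact right_mem_segment ℝ _ _
        · have := dpt_mem_segment T hd0 (i := i + 2) hn
          rwa [add_two_one] at this
      refine ⟨hm1, hm.le, by omega, by omega, ?_⟩
      have hmem : ∃ r : ℝ, AffineMap.lineMap (dpt T d (i, m)) (dpt T d (i + 2, n)) r = P := by
        rw [mem_affineSpan_pair_iff_exists_lineMap_eq] at hPl
        exact hPl
      obtain ⟨r, hr⟩ := hmem
      have hc : ∀ k : Fin 3, B.coord k P
          = (1 - r) * ((1 - (m : ℝ) / d) * B.coord k (T i) + (m : ℝ) / d * B.coord k (T (i + 1)))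
            + r * ((1 - (n : ℝ) / d) * B.coord k (T (i + 2)) + (n : ℝ) / d * B.coord k (T i)) := by
        intro k
        rw [← hr, dpt, dpt]
        simp only [AffineMap.apply_lineMap, add_two_one, AffineMap.lineMap_apply_ring]
      have c1 := hc (i + 1)
      have c2 := hc (i + 2)
      have hne1 : i + 1 ≠ i := add_one_ne i
      have hne2 : i + 2 ≠ i := add_two_ne i
      have hne3 : i + 1 ≠ i + 2 := add_one_ne_add_two i
      have b11 : B.coord (i + 1) (T (i + 1)) = 1 := by
        rw [← hB]; exact B.coord_apply_eq _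
      have b10 : B.coord (i + 1) (T i) = 0 := by
        rw [← hB]; exact B.coord_apply_ne hne1
      have b12 : B.coord (i + 1) (T (i + 2)) = 0 := by
        rw [← hB]; exact B.coord_apply_ne hne3
      have b20 : B.coord (i + 2) (T i) = 0 := by
        rw [← hB]; exact B.coord_apply_ne hne2
      have b21 : B.coord (i + 2) (T (i + 1)) = 0 := by
        rw [← hB]; exact B.coord_apply_ne hne3.symm
      have b22 : B.coord (i + 2) (T (i + 2)) = 1 := by
        rw [← hB]; exact B.coord_apply_eq _
      rw [b11, b10, b12] at c1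
      rw [b20, b21, b22] at c2
      have x1 : X (i + 1) = (1 - r) * m := by
        simp only [hXdef]
        rw [c1]
        field_simp
        ring
      have x2 : X (i + 2) = r * (d - n) := by
        simp only [hXdef]
        rw [c2]
        field_simp
        ring
      rw [x1, x2, Nat.cast_sub hn.le]
      ring
    have hij : i ≠ j := by
      rintro rfl
      apply hnc
      exact ⟨i, i + 1, (add_one_ne i).symm, dpt_mem_segment T hd0 hm, dpt_mem_segment T hd0 hn⟩
    have hcases : j = i + 2 ∨ i = j + 2 := eq_add_two_or i j hij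
    rw [Finset.coe_image, Set.mem_image]
    rcases hcases with rfl | rfl
    · exact ⟨(i, m, n), key i m n hm hn hnc hPℓ, rfl⟩
    · refine ⟨(j, n, m), key j n m hn hm ?_ ?_, ?_⟩
      · rintro ⟨k, l, hkl, h1, h2⟩
        exact hnc ⟨k, l, hkl, h2, h1⟩
      · rw [Set.pair_comm]
        exact hPℓ
      · simp only [e1, e2]
        rw [Set.pair_comm]
  calc {ℓ ∈ wsLines T d | P ∈ ℓ}.encard
      ≤ (((lines d X).image (fun t => line[ℝ, dpt T d (e1 t), dpt T d (e2 t)]) :
        Finset (AffineSubspace ℝ Plane)) : Set (AffineSubspace ℝ Plane)).encard :=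
        Set.encard_le_encard hsub
    _ = (((lines d X).image (fun t => line[ℝ, dpt T d (e1 t), dpt T d (e2 t)])).card : ℕ∞) :=
        Set.encard_coe_eq_coe_finsetCard _
    _ ≤ ((lines d X).card : ℕ∞) := by exact_mod_cast Finset.card_image_le
    _ ≤ ((d + 1 : ℕ) : ℕ∞) := by exact_mod_cast card_lines_le hX hsum
    _ = d + 1 := by push_cast; rfl

end Pool.Agent.Results.MP_e74ad6_co.WangShiConcurrency
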